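import Pool.Agent.NDR.StmtsR

/-!
Squad NDR (MP_b48657_ag), row CON: the cone of the exponents of `z f'`.
-/

set_option autoImplicit false

namespace Pool.Agent.NDR.H70

open Pool.Agent.NDR Finset

theorem con (hmwe : MweStmt) : ConStmt := by
  classical
  intro σ _ I A L hL hA hpow
  obtain ⟨Ψ, hΨ0, hΨ⟩ := hmwe (Option σ) (ih I) A
  have hnn : ∀ ψ ∈ Ψ, ∀ a ∈ A, 0 ≤ pr ψ a := by
    intro ψ hψ a ha
    have h1 := (hΨ ℝ (fun i => ((a i : ℤ) : ℝ))).1
      ⟨fun b => if b = a then 1 else 0, fun b => by
        show (0 : ℝ) ≤ if b = a then 1 else 0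
        split_ifs <;> norm_num, fun i _ => by
        show ((a i : ℤ) : ℝ) = ∑ b ∈ A, (if b = a then (1 : ℝ) else 0) * ((b i : ℤ) : ℝ)
        simp only [ite_mul, one_mul, zero_mul, Finset.sum_ite_eq', if_pos ha]⟩ ψ hψ
    have h2 : (0 : ℝ) ≤ ((pr ψ a : ℤ) : ℝ) := by
      refine le_of_le_of_eq h1 ?_
      unfold pr
      push_cast
      rfl
    exact_mod_cast h2
  refine ⟨Ψ.filter fun ψ => ψ none ≠ 0, ?_, ?_⟩
  · intro l hl
    obtain ⟨h1, h2⟩ := Finset.mem_filter.1 hl
    exact ⟨h2, hΨ0 l h1, hnn l h1⟩
  · intro x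
    constructor
    · intro hx
      refine ⟨?_, ?_⟩
      · intro i hi
        obtain ⟨l, hl0, hl⟩ := hx
        rw [hl (some i) (Finset.some_mem_insertNone.2 hi)]
        refine Finset.sum_nonneg fun a ha => mul_nonneg (hl0 a) ?_
        exact_mod_cast hA a ha i hi
      · intro l hl
        exact (hΨ ℝ x).1 hx l (Finset.mem_filter.1 hl).1
    · rintro ⟨hx0, hxH⟩
      refine (hΨ ℝ x).2 fun ψ hψ => ?_
      by_cases h0 : ψ none = 0
      · rw [Fintype.sum_option, h0]
        refine add_nonneg (by simp) (Finset.sum_nonneg fun j _ => ?_)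
        by_cases hj : j ∈ I
        · refine mul_nonneg ?_ (hx0 j hj)
          obtain ⟨a, ha, haj, hak⟩ := hpow j hj
          have h1 := hnn ψ hψ a ha
          have h2 : pr ψ a = ψ (some j) * L := by
            unfold pr
            rw [Fintype.sum_option, h0, zero_mul, zero_add,
              Finset.sum_eq_single j]
            · simp only [Int.cast_id]
              rw [haj]
            · intro k _ hkj
              by_cases hk : k ∈ I
              · rw [hak k hk hkj]
                simp
              · rw [hΨ0 ψ hψ (some k) (fun h => hk (Finset.some_mem_insertNone.1 h))]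
                simp
            · intro h
              exact absurd (Finset.mem_univ _) h
          rw [h2] at h1
          have h3 : (0 : ℤ) < L := by exact_mod_cast hL
          have h4 : 0 ≤ ψ (some j) := nonneg_of_mul_nonneg_left h1 h3
          exact_mod_cast h4
        · rw [hΨ0 ψ hψ (some j) (fun h => hj (Finset.some_mem_insertNone.1 h))]
          simp
      · exact hxH ψ (Finset.mem_filter.2 ⟨hψ, h0⟩)

end Pool.Agent.NDR.H70
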