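import Pool.Agent.NDR.StmtsC

/-!
Squad NDR (MP_b48657_ag), row CLV: stability of `Vc`.
-/

set_option autoImplicit false

namespace Pool.Agent.NDR.H70

open Pool.Agent.NDR

theorem supp_pderiv {τ R : Type} [CommRing R] {i : τ} {P : MvPolynomial τ R} {n : τ →₀ ℕ}
    (h : n ∈ (MvPolynomial.pderiv i P).support) :
    ∃ s ∈ P.support, n = s - Finsupp.single i 1 := by
  classical
  have h1 : MvPolynomial.pderiv i P =
      ∑ s ∈ P.support, MvPolynomial.monomial (s - Finsupp.single i 1)
        (MvPolynomial.coeff s P * ((s i : ℕ) : R)) := by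
    conv_lhs => rw [P.as_sum]
    rw [map_sum]
    refine Finset.sum_congr rfl fun s _ => ?_
    rw [MvPolynomial.pderiv_monomial]
  rw [MvPolynomial.mem_support_iff, h1, MvPolynomial.coeff_sum] at h
  obtain ⟨s, hs, h2⟩ := Finset.exists_ne_zero_of_sum_ne_zero h
  refine ⟨s, hs, ?_⟩
  by_contra hne
  apply h2
  rw [MvPolynomial.coeff_monomial, if_neg (Ne.symm hne)]

theorem clv : ClvStmt := by
  classical
  intro σ _ R _ M I f hf
  have hinc : ∀ n ∈ (inc f).support, ∃ α ∈ M, n = Finsupp.mapDomain some α := by
    intro n hn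
    rw [inc, MvPolynomial.support_rename_of_injective (Option.some_injective _)] at hn
    obtain ⟨α, hα, rfl⟩ := Finset.mem_image.1 hn
    exact ⟨α, hf hα, rfl⟩
  have hsome : ∀ (α : σ →₀ ℕ) (i : σ), (Finsupp.mapDomain some α) (some i) = α i := by
    intro α i
    exact Finsupp.mapDomain_apply (Option.some_injective _) α i
  have hnone : ∀ (α : σ →₀ ℕ), (Finsupp.mapDomain some α) none = 0 := by
    intro α
    exact Finsupp.mapDomain_notin_range α none (by simp)
  constructor
  · intro n hn
    obtain ⟨α, hα, rfl⟩ := hinc n hn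
    refine ⟨α, hα, fun _ => 0, ?_, ?_⟩
    · intro i _
      rw [hsome]
      simp
    · rw [hnone]
      simp
  · intro P hP j hj n hn
    have hij : ∀ i ∈ I, (Finsupp.single (some j) 1 : Option σ →₀ ℕ) (some i) = 0 := by
      intro i hi
      rw [Finsupp.single_apply, if_neg]
      intro h
      rw [Option.some.injEq] at h
      exact hj (h ▸ hi)
    have hjn : (Finsupp.single (some j) 1 : Option σ →₀ ℕ) none = 0 := by
      rw [Finsupp.single_apply, if_neg]
      simp
    unfold dE at hn
    rcases Finset.mem_union.1 (MvPolynomial.support_add hn) with h | h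
    · obtain ⟨s, hs, rfl⟩ := supp_pderiv h
      obtain ⟨α₀, hα₀, r, h1, h2⟩ := hP s hs
      refine ⟨α₀, hα₀, r, ?_, ?_⟩
      · intro i hi
        rw [Finsupp.tsub_apply, hij i hi, Nat.sub_zero]
        exact h1 i hi
      · rw [Finsupp.tsub_apply, hjn, Nat.sub_zero]
        exact h2
    · obtain ⟨m, hm, s, hs, rfl⟩ := Finset.mem_add.1 (MvPolynomial.support_mul _ _ h)
      obtain ⟨u, hu, v, hv, rfl⟩ := Finset.mem_add.1 (MvPolynomial.support_mul _ _ hm)
      obtain ⟨w, hw, rfl⟩ := supp_pderiv hv
      obtain ⟨α, hα, rfl⟩ := hinc w hw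
      have hu' : u = Finsupp.single none 1 := by
        have h3 := MvPolynomial.support_monomial_subset hu
        exact Finset.mem_singleton.1 h3
      subst hu'
      obtain ⟨α₀, hα₀, r, h1, h2⟩ := hP s hs
      refine ⟨α₀, hα₀, fun β => r β + if β = α then 1 else 0, ?_, ?_⟩
      · intro i hi
        have h3 : (Finsupp.single none 1 : Option σ →₀ ℕ) (some i) = 0 := by
          rw [Finsupp.single_apply, if_neg]
          simp
        rw [Finsupp.add_apply, Finsupp.add_apply, Finsupp.tsub_apply, hij i hi, Nat.sub_zero,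
          hsome, h3, h1 i hi]
        have h4 : ∑ β ∈ M, (r β + if β = α then 1 else 0) * β i =
            ∑ β ∈ M, r β * β i + α i := by
          simp only [add_mul, Finset.sum_add_distrib, ite_mul, one_mul, zero_mul,
            Finset.sum_ite_eq', if_pos hα]
        rw [h4]
        omega
      · rw [Finsupp.add_apply, Finsupp.add_apply, Finsupp.tsub_apply, hjn, Nat.sub_zero,
          hnone, h2]
        have h3 : (Finsupp.single none 1 : Option σ →₀ ℕ) none = 1 := by simp
        have h4 : ∑ β ∈ M, (r β + if β = α then 1 else 0) = ∑ β ∈ M, r β + 1 := by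
          simp only [Finset.sum_add_distrib, Finset.sum_ite_eq', if_pos hα]
        rw [h3, h4]
        omega

end Pool.Agent.NDR.H70
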